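import Pool.Agent.R866.UD.TwoAdic

/-! The field `ℚ(√3, √11)` embedded in `ℚ₂(√3)`, and the colouring. -/

namespace Pool.Agent.R866.UD

open PadicInt IntermediateField

/-- The field `K = ℚ(√3, √11)` inside `ℝ`. -/
noncomputable abbrev KK : IntermediateField ℚ ℝ :=
  IntermediateField.adjoin ℚ {Real.sqrt 3, Real.sqrt 11}

/-- `√3` as an element of `K`. -/
noncomputable def s3 : KK := ⟨Real.sqrt 3, subset_adjoin _ _ (by simp)⟩

/-- `√11` as an element of `K`. -/
noncomputable def s11 : KK := ⟨Real.sqrt 11, subset_adjoin _ _ (by simp)⟩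

theorem s3_sq : s3 ^ 2 = 3 := by
  apply Subtype.ext
  change (Real.sqrt 3) ^ 2 = 3
  exact Real.sq_sqrt (by norm_num)

theorem s11_sq : s11 ^ 2 = 11 := by
  apply Subtype.ext
  change (Real.sqrt 11) ^ 2 = 11
  exact Real.sq_sqrt (by norm_num)

theorem KK_alg : Algebra.IsAlgebraic ℚ KK := by
  apply IntermediateField.isAlgebraic_adjoin
  intro x hx
  rcases hx with rfl | hx
  · refine IsIntegral.of_pow (n := 2) (by norm_num) ?_
    rw [Real.sq_sqrt (by norm_num)]
    have h := isIntegral_algebraMap (R := ℚ) (A := ℝ) (x := 3)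
    rwa [map_ofNat] at h
  · rw [Set.mem_singleton_iff] at hx
    subst hx
    refine IsIntegral.of_pow (n := 2) (by norm_num) ?_
    rw [Real.sq_sqrt (by norm_num)]
    have h := isIntegral_algebraMap (R := ℚ) (A := ℝ) (x := 11)
    rwa [map_ofNat] at h

theorem exists_emb : ∃ φ : KK →+* AlgebraicClosure ℚ_[2], True := by
  have := KK_alg
  exact ⟨(IsAlgClosed.lift (R := ℚ) (S := KK) (M := AlgebraicClosure ℚ_[2])).toRingHom, trivial⟩

section

variable (φ : KK →+* AlgebraicClosure ℚ_[2])

/-- shorthand for the structure map -/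
noncomputable abbrev al : ℚ_[2] →+* AlgebraicClosure ℚ_[2] := algebraMap _ _

theorem al_inj {x y : ℚ_[2]} (h : al x = al y) : x = y := (algebraMap _ _).injective h

theorem phi_s3 : φ s3 * φ s3 = 3 := by
  rw [← map_mul, ← pow_two, s3_sq, map_ofNat]

theorem phi_s11 : φ s11 * φ s11 = 11 := by
  rw [← map_mul, ← pow_two, s11_sq, map_ofNat]

theorem uniq {a b : ℚ_[2]} (h : al a + al b * φ s3 = 0) : a = 0 ∧ b = 0 := by
  by_cases hb : b = 0
  · subst hb
    rw [map_zero, zero_mul, add_zero] at h
    exact ⟨al_inj (by rw [h, map_zero]), rfl⟩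
  · exfalso
    apply not_sq_three (a / b)
    apply al_inj
    have hb' : al b ≠ 0 := by
      intro h0
      exact hb (al_inj (by rw [h0, map_zero]))
    rw [map_pow, map_div₀, map_ofNat]
    rw [div_pow, div_eq_iff (pow_ne_zero 2 hb')]
    have h3 := phi_s3 φ
    have h1 : al a = - (al b * φ s3) := eq_neg_of_add_eq_zero_left h
    rw [h1]
    linear_combination (al b) ^ 2 * h3

theorem uniq' {a b a' b' : ℚ_[2]} (h : al a + al b * φ s3 = al a' + al b' * φ s3) :
    a = a' ∧ b = b' := by
  have : al (a - a') + al (b - b') * φ s3 = 0 := by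
    rw [map_sub, map_sub]; linear_combination h
  obtain ⟨h1, h2⟩ := uniq φ this
  exact ⟨sub_eq_zero.mp h1, sub_eq_zero.mp h2⟩

theorem exists_coords (x : KK) : ∃ a b : ℚ_[2], φ x = al a + al b * φ s3 := by
  obtain ⟨x, hx⟩ := x
  have h3 := phi_s3 φ
  induction hx using IntermediateField.adjoin_induction with
  | mem x hx =>
    rcases hx with rfl | hx
    · refine ⟨0, 1, ?_⟩
      rw [map_zero, map_one, zero_add, one_mul]
      rfl
    · rw [Set.mem_singleton_iff] at hx
      subst hx
      change ∃ a b : ℚ_[2], φ s11 = al a + al b * φ s3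
      obtain ⟨r, hr⟩ := exists_sq_33
      have h11 := phi_s11 φ
      have e1 : (φ s3 * φ s11 - al r) * (φ s3 * φ s11 + al r) = 0 := by
        have : al r ^ 2 = 33 := by rw [← map_pow, hr, map_ofNat]
        linear_combination (φ s11 * φ s11) * h3 + 3 * h11 - this
      have h30 : (3 : AlgebraicClosure ℚ_[2]) ≠ 0 := three_ne_zero
      rcases mul_eq_zero.mp e1 with h | h
      · refine ⟨0, r / 3, ?_⟩
        rw [map_zero, map_div₀, map_ofNat, zero_add]
        field_simp
        linear_combination (- φ s11) * h3 + φ s3 * h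
      · refine ⟨0, - r / 3, ?_⟩
        rw [map_zero, map_div₀, map_neg, map_ofNat, zero_add]
        field_simp
        linear_combination (- φ s11) * h3 + φ s3 * h
  | algebraMap x =>
    refine ⟨(x : ℚ_[2]), 0, ?_⟩
    rw [map_zero, zero_mul, add_zero]
    have h1 : φ ⟨algebraMap ℚ ℝ x, IntermediateField.algebraMap_mem _ _⟩ =
        φ (algebraMap ℚ KK x) := rfl
    rw [h1, eq_ratCast (algebraMap ℚ KK) x, map_ratCast, map_ratCast]
  | add x y hx hy ihx ihy =>
    obtain ⟨a, b, h⟩ := ihx
    obtain ⟨a', b', h'⟩ := ihy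
    refine ⟨a + a', b + b', ?_⟩
    have : φ ⟨x + y, add_mem hx hy⟩ = φ ⟨x, hx⟩ + φ ⟨y, hy⟩ := by
      rw [← map_add]; rfl
    rw [this, h, h', map_add, map_add]
    ring
  | inv x hx ihx =>
    obtain ⟨a, b, h⟩ := ihx
    have h0 : φ ⟨x⁻¹, inv_mem hx⟩ = (φ ⟨x, hx⟩)⁻¹ := by
      rw [← map_inv₀]; rfl
    by_cases hN : a ^ 2 - 3 * b ^ 2 = 0
    · -- then `a = b = 0`
      have hb : b = 0 := by
        by_contra hb
        apply not_sq_three (a / b)
        rw [div_pow, div_eq_iff (pow_ne_zero 2 hb)]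
        linear_combination hN
      have ha : a = 0 := by
        rw [hb] at hN
        have : a ^ 2 = 0 := by linear_combination hN
        exact pow_eq_zero_iff (two_ne_zero) |>.mp this
      refine ⟨0, 0, ?_⟩
      rw [h0, h, ha, hb]
      simp
    · refine ⟨a / (a ^ 2 - 3 * b ^ 2), - b / (a ^ 2 - 3 * b ^ 2), ?_⟩
      rw [h0]
      apply inv_eq_of_mul_eq_one_left
      have hN' : (al a) ^ 2 - 3 * (al b) ^ 2 ≠ 0 := by
        intro hc
        apply hN
        apply al_inj
        rw [map_sub, map_pow, map_mul, map_pow, map_ofNat, map_zero, hc]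
      rw [h]
      simp only [map_div₀, map_neg, map_sub, map_mul, map_pow, map_ofNat]
      field_simp
      linear_combination (- (al b) ^ 2) * h3
  | mul x y hx hy ihx ihy =>
    obtain ⟨a, b, h⟩ := ihx
    obtain ⟨a', b', h'⟩ := ihy
    refine ⟨a * a' + 3 * (b * b'), a * b' + b * a', ?_⟩
    have : φ ⟨x * y, mul_mem hx hy⟩ = φ ⟨x, hx⟩ * φ ⟨y, hy⟩ := by
      rw [← map_mul]; rfl
    rw [this, h, h']
    simp only [map_add, map_mul, map_ofNat]
    linear_combination (al b * al b') * h3

end

/-- The unit distance graph on `K × K`. -/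
noncomputable def GK : SimpleGraph (KK × KK) where
  Adj p q := ((p.1 : ℝ) - q.1) ^ 2 + ((p.2 : ℝ) - q.2) ^ 2 = 1
  symm := ⟨by
    intro p q h
    rw [← h]; ring⟩
  loopless := ⟨by
    intro p h
    simp at h⟩

theorem adj_iff (p q : KK × KK) :
    GK.Adj p q ↔ (p.1 - q.1) ^ 2 + (p.2 - q.2) ^ 2 = 1 := by
  constructor
  · intro h
    apply Subtype.ext
    exact h
  · intro h
    exact congrArg Subtype.val h

theorem colorable4 : GK.Colorable 4 := by
  obtain ⟨φ, -⟩ := exists_emb
  choose α β hαβ using exists_coords φ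
  obtain ⟨d, hd⟩ := exists_digit
  have h3 := phi_s3 φ
  let A : KK × KK → KK := fun p => p.1 + p.2 / s3
  let B : KK × KK → KK := fun p => 2 * p.2 / s3
  have hs0 : s3 ≠ 0 := by
    intro h
    have := s3_sq
    rw [h] at this
    norm_num at this
  have hsub : ∀ x y : KK, α (x - y) = α x - α y ∧ β (x - y) = β x - β y := by
    intro x y
    apply uniq' φ
    rw [← hαβ, map_sub, map_sub, map_sub, hαβ x, hαβ y]
    ring
  let c : KK × KK → ZMod 2 × ZMod 2 := fun p =>
    (d (α (A p)) + d (β (A p)), d (α (B p)) + d (β (B p)))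
  have hc : ∀ {p q : KK × KK}, GK.Adj p q → c p ≠ c q := by
    intro p q hpq heq
    rw [adj_iff] at hpq
    have hA : A p - A q = (p.1 - q.1) + (p.2 - q.2) / s3 := by
      simp only [A]; ring
    have hB : B p - B q = 2 * (p.2 - q.2) / s3 := by
      simp only [B]; ring
    have hform : (A p - A q) * (A p - A q) - (A p - A q) * (B p - B q)
        + (B p - B q) * (B p - B q) = 1 := by
      rw [hA, hB, ← hpq]
      have := s3_sq
      field_simp
      linear_combination (- (p.2 - q.2) ^ 2) * this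
    have hform2 := congrArg φ hform
    rw [map_add, map_sub, map_mul, map_mul, map_mul, map_one, hαβ (A p - A q),
      hαβ (B p - B q), (hsub (A p) (A q)).1, (hsub (A p) (A q)).2, (hsub (B p) (B q)).1,
      (hsub (B p) (B q)).2] at hform2
    set a1 := α (A p) - α (A q) with ha1
    set a2 := β (A p) - β (A q) with ha2
    set b1 := α (B p) - α (B q) with hb1
    set b2 := β (B p) - β (B q) with hb2
    have huni : al (a1 * a1 + 3 * (a2 * a2) - (a1 * b1 + 3 * (a2 * b2)) +
        (b1 * b1 + 3 * (b2 * b2))) + al (2 * (a1 * a2) - (a1 * b2 + a2 * b1) + 2 * (b1 * b2))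
          * φ s3 = al 1 + al 0 * φ s3 := by
      simp only [map_add, map_sub, map_mul, map_ofNat, map_one, map_zero]
      linear_combination hform2 - (al a2 * al a2 - al a2 * al b2 + al b2 * al b2) * h3
    obtain ⟨hP, hR⟩ := uniq' φ huni
    obtain ⟨x1, x2, y1, y2, e1, e2, e3, e4, hne⟩ := integral_of_form hP hR
    apply hne
    have d1 := hd _ _ x1 (by rw [← e1])
    have d2 := hd _ _ x2 (by rw [← e2])
    have d3 := hd _ _ y1 (by rw [← e3])
    have d4 := hd _ _ y2 (by rw [← e4])
    have f1 := congrArg Prod.fst heq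
    have f2 := congrArg Prod.snd heq
    simp only [c] at f1 f2
    constructor
    · rw [← d1, ← d2]; linear_combination f1
    · rw [← d3, ← d4]; linear_combination f2
  let C : GK.Coloring (ZMod 2 × ZMod 2) := SimpleGraph.Coloring.mk c hc
  have := C.colorable
  simpa using this

theorem tri : ∀ a b c d : Fin 3, a ≠ b → a ≠ c → b ≠ c → b ≠ d → c ≠ d → a = d := by decide

theorem not_colorable3 : ¬ GK.Colorable 3 := by
  rintro ⟨C⟩
  have h3 := s3_sq
  have h11 := s11_sq
  let a : KK × KK := (0, 0)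
  let b : KK × KK := (1, 0)
  let c : KK × KK := (1 / 2, s3 / 2)
  let e : KK × KK := (3 / 2, s3 / 2)
  let b' : KK × KK := (5 / 6, s11 / 6)
  let c' : KK × KK := (5 / 12 - s3 * s11 / 12, s11 / 12 + 5 * s3 / 12)
  let e' : KK × KK := (5 / 4 - s3 * s11 / 12, s11 / 4 + 5 * s3 / 12)
  have ab : C a ≠ C b := C.valid ((adj_iff _ _).mpr (by simp only [a, b]; norm_num))
  have ac : C a ≠ C c := C.valid ((adj_iff _ _).mpr (by
    simp only [a, c]; linear_combination (1 / 4) * h3))
  have bc : C b ≠ C c := C.valid ((adj_iff _ _).mpr (by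
    simp only [b, c]; linear_combination (1 / 4) * h3))
  have be : C b ≠ C e := C.valid ((adj_iff _ _).mpr (by
    simp only [b, e]; linear_combination (1 / 4) * h3))
  have ce : C c ≠ C e := C.valid ((adj_iff _ _).mpr (by
    simp only [c, e]; norm_num))
  have ab' : C a ≠ C b' := C.valid ((adj_iff _ _).mpr (by
    simp only [a, b']; linear_combination (1 / 36) * h11))
  have ac' : C a ≠ C c' := C.valid ((adj_iff _ _).mpr (by
    simp only [a, c']
    linear_combination (25 / 144 + s11 ^ 2 / 144) * h3 + (4 / 144) * h11))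
  have bc' : C b' ≠ C c' := C.valid ((adj_iff _ _).mpr (by
    simp only [b', c']
    linear_combination (25 / 144 + s11 ^ 2 / 144) * h3 + (4 / 144) * h11))
  have be' : C b' ≠ C e' := C.valid ((adj_iff _ _).mpr (by
    simp only [b', e']
    linear_combination (25 / 144 + s11 ^ 2 / 144) * h3 + (4 / 144) * h11))
  have ce' : C c' ≠ C e' := C.valid ((adj_iff _ _).mpr (by
    simp only [c', e']; linear_combination (1 / 36) * h11))
  have ee' : C e ≠ C e' := C.valid ((adj_iff _ _).mpr (by
    simp only [e, e']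
    linear_combination (1 / 144 + s11 ^ 2 / 144) * h3 + (12 / 144) * h11))
  have t1 := tri _ _ _ _ ab ac bc be ce
  have t2 := tri _ _ _ _ ab' ac' bc' be' ce'
  exact ee' (t1.symm.trans t2)

theorem chi_eq : GK.chromaticNumber = 4 := by
  have h := (SimpleGraph.chromaticNumber_eq_iff_colorable_not_colorable (G := GK) (n := 3)).mpr
    ⟨colorable4, not_colorable3⟩
  rw [h]
  norm_num

end Pool.Agent.R866.UD
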