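import Mathlib

/-! Two-adic lemmas for the colouring of the unit distance graph over ℚ(√3, √11). -/

namespace Pool.Agent.R866.UD

open PadicInt

/-- The inclusion of the 2-adic integers. -/
noncomputable def io : ℤ_[2] →+* ℚ_[2] := PadicInt.Coe.ringHom

theorem io_inj {x y : ℤ_[2]} (h : io x = io y) : x = y := Subtype.ext h

theorem not_sq_three (q : ℚ_[2]) : q ^ 2 ≠ 3 := by
  intro h
  have hn : ‖q‖ ≤ 1 := by
    by_contra hc
    push Not at hc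
    have h1 : ‖q ^ 2‖ ≤ 1 := by
      rw [h]
      exact_mod_cast Padic.norm_int_le_one (p := 2) 3
    rw [norm_pow] at h1
    nlinarith
  let z : ℤ_[2] := ⟨q, hn⟩
  have hz : z ^ 2 = 3 := by
    apply Subtype.ext
    exact_mod_cast h
  have h4 : (toZModPow 2 z) ^ 2 = (3 : ZMod (2 ^ 2)) := by
    rw [← map_pow, hz]; exact map_ofNat _ 3
  have : ∀ w : ZMod (2 ^ 2), w ^ 2 ≠ 3 := by decide
  exact this _ h4

theorem exists_sq_33 : ∃ r : ℚ_[2], r ^ 2 = 33 := by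
  let F : Polynomial ℤ_[2] := Polynomial.X ^ 2 - Polynomial.C 33
  have h1 : Polynomial.aeval (1 : ℤ_[2]) F = -(2 ^ 5) := by
    simp only [F, map_sub, map_pow, Polynomial.aeval_X, Polynomial.aeval_C]
    have : (algebraMap ℤ_[2] ℤ_[2]) 33 = 33 := rfl
    rw [this]; norm_num
  have h2 : Polynomial.aeval (1 : ℤ_[2]) (Polynomial.derivative F) = 2 := by
    simp [F]
    norm_num
  have hn : ‖Polynomial.aeval (1 : ℤ_[2]) F‖
      < ‖Polynomial.aeval (1 : ℤ_[2]) (Polynomial.derivative F)‖ ^ 2 := by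
    rw [h1, h2, norm_neg]
    have e1 : ‖((2 : ℤ_[2]) ^ 5)‖ = (2 : ℝ) ^ (-(5 : ℤ)) := by
      have := PadicInt.norm_p_pow (p := 2) 5
      simpa using this
    have e2 : ‖(2 : ℤ_[2])‖ = (2 : ℝ)⁻¹ := by
      have := PadicInt.norm_p (p := 2)
      simpa using this
    rw [e1, e2]
    norm_num
  obtain ⟨z, hz, _⟩ := hensels_lemma hn
  refine ⟨io z, ?_⟩
  have h3 : z ^ 2 = 33 := by
    have : Polynomial.aeval z F = z ^ 2 - 33 := by
      simp only [F, map_sub, map_pow, Polynomial.aeval_X, Polynomial.aeval_C]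
      rfl
    rw [this] at hz
    exact sub_eq_zero.mp hz
  rw [← map_pow, h3, map_ofNat]

theorem finite_check : ∀ a1 a2 b1 b2 : ZMod (2 ^ 2),
    (a1 * a1 + 3 * (a2 * a2) - (a1 * b1 + 3 * (a2 * b2)) + (b1 * b1 + 3 * (b2 * b2)) = 0) →
    (2 * (a1 * a2) - (a1 * b2 + a2 * b1) + 2 * (b1 * b2) = 0) →
    2 * a1 = 0 ∧ 2 * a2 = 0 ∧ 2 * b1 = 0 ∧ 2 * b2 = 0 := by
  decide

theorem finite_check2 : ∀ a1 a2 b1 b2 : ZMod 2,
    (a1 * a1 + 3 * (a2 * a2) - (a1 * b1 + 3 * (a2 * b2)) + (b1 * b1 + 3 * (b2 * b2)) = 1) →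
    (2 * (a1 * a2) - (a1 * b2 + a2 * b1) + 2 * (b1 * b2) = 0) →
    ¬ (a1 + a2 = 0 ∧ b1 + b2 = 0) := by
  decide

theorem half_of {z : ℤ_[2]} (h : 2 * toZModPow 2 z = 0) : ∃ y : ℤ_[2], z = 2 * y := by
  have h1 : toZModPow 2 (2 * z) = 0 := by
    rw [map_mul, map_ofNat]; exact h
  have h2 : 2 * z ∈ RingHom.ker (toZModPow 2 : ℤ_[2] →+* ZMod (2 ^ 2)) := h1
  rw [ker_toZModPow, Ideal.mem_span_singleton] at h2
  obtain ⟨w, hw⟩ := h2
  refine ⟨w, ?_⟩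
  have h20 : (2 : ℤ_[2]) ≠ 0 := two_ne_zero
  apply mul_left_cancel₀ h20
  rw [hw]
  push_cast
  ring

/-- The four numbers become integers after multiplication by `2 ^ k`. -/
def Sc (a1 a2 b1 b2 : ℚ_[2]) (k : ℕ) : Prop :=
  ∃ x1 x2 y1 y2 : ℤ_[2], 2 ^ k * a1 = io x1 ∧ 2 ^ k * a2 = io x2 ∧ 2 ^ k * b1 = io y1 ∧
    2 ^ k * b2 = io y2

theorem exists_scale (q : ℚ_[2]) : ∃ k : ℕ, ∃ x : ℤ_[2], 2 ^ k * q = io x := by
  obtain ⟨k, hk⟩ := pow_unbounded_of_one_lt ‖q‖ (one_lt_two : (1 : ℝ) < 2)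
  refine ⟨k, ⟨⟨2 ^ k * q, ?_⟩, rfl⟩⟩
  have h2 : ‖(2 : ℚ_[2])‖ = (2 : ℝ)⁻¹ := by
    have := Padic.norm_p (p := 2)
    simpa using this
  rw [norm_mul, norm_pow, h2, inv_pow]
  have : (0 : ℝ) < 2 ^ k := by positivity
  rw [inv_mul_le_iff₀ this, mul_one]
  exact hk.le

theorem scale_mono {q : ℚ_[2]} {k : ℕ} (h : ∃ x : ℤ_[2], 2 ^ k * q = io x) (l : ℕ) :
    ∃ x : ℤ_[2], 2 ^ (l + k) * q = io x := by
  obtain ⟨x, hx⟩ := h
  refine ⟨2 ^ l * x, ?_⟩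
  rw [pow_add, mul_assoc, hx, map_mul, map_pow, map_ofNat]

theorem exists_Sc (a1 a2 b1 b2 : ℚ_[2]) : ∃ k, Sc a1 a2 b1 b2 k := by
  obtain ⟨k1, h1⟩ := exists_scale a1
  obtain ⟨k2, h2⟩ := exists_scale a2
  obtain ⟨k3, h3⟩ := exists_scale b1
  obtain ⟨k4, h4⟩ := exists_scale b2
  refine ⟨k1 + k2 + k3 + k4, ?_⟩
  obtain ⟨x1, e1⟩ := scale_mono h1 (k2 + k3 + k4)
  obtain ⟨x2, e2⟩ := scale_mono h2 (k1 + k3 + k4)
  obtain ⟨x3, e3⟩ := scale_mono h3 (k1 + k2 + k4)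
  obtain ⟨x4, e4⟩ := scale_mono h4 (k1 + k2 + k3)
  refine ⟨x1, x2, x3, x4, ?_, ?_, ?_, ?_⟩
  · rw [← e1]; congr 2; omega
  · rw [← e2]; congr 2; omega
  · rw [← e3]; congr 2; omega
  · rw [← e4]

theorem Sc_step {a1 a2 b1 b2 : ℚ_[2]}
    (hP : a1 * a1 + 3 * (a2 * a2) - (a1 * b1 + 3 * (a2 * b2)) + (b1 * b1 + 3 * (b2 * b2)) = 1)
    (hR : 2 * (a1 * a2) - (a1 * b2 + a2 * b1) + 2 * (b1 * b2) = 0) {k : ℕ}
    (h : Sc a1 a2 b1 b2 (k + 1)) : Sc a1 a2 b1 b2 k := by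
  obtain ⟨x1, x2, y1, y2, e1, e2, e3, e4⟩ := h
  have hP' : x1 * x1 + 3 * (x2 * x2) - (x1 * y1 + 3 * (x2 * y2)) + (y1 * y1 + 3 * (y2 * y2))
      = 2 ^ 2 * 4 ^ k := by
    apply io_inj
    simp only [map_add, map_sub, map_mul, map_ofNat, map_pow]
    rw [← e1, ← e2, ← e3, ← e4]
    have h4 : (4 : ℚ_[2]) ^ k = 2 ^ k * 2 ^ k := by
      rw [← mul_pow]; norm_num
    rw [h4]
    linear_combination (2 ^ (k + 1)) ^ 2 * hP
  have hR' : 2 * (x1 * x2) - (x1 * y2 + x2 * y1) + 2 * (y1 * y2) = 0 := by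
    apply io_inj
    simp only [map_add, map_sub, map_mul, map_ofNat, map_zero]
    rw [← e1, ← e2, ← e3, ← e4]
    linear_combination (2 ^ (k + 1)) ^ 2 * hR
  have h40 : toZModPow 2 ((2 : ℤ_[2]) ^ 2 * 4 ^ k) = 0 := by
    have h1 : (2 : ℤ_[2]) ^ 2 * 4 ^ k ∈ RingHom.ker (toZModPow 2 : ℤ_[2] →+* ZMod (2 ^ 2)) := by
      rw [ker_toZModPow, Ideal.mem_span_singleton]
      push_cast
      exact dvd_mul_right _ _
    exact h1
  have hP4 := congrArg (toZModPow 2) hP'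
  have hR4 := congrArg (toZModPow 2) hR'
  rw [h40] at hP4
  simp only [map_add, map_sub, map_mul, map_ofNat, map_zero] at hP4 hR4
  obtain ⟨c1, c2, c3, c4⟩ := finite_check _ _ _ _ hP4 hR4
  obtain ⟨z1, hz1⟩ := half_of c1
  obtain ⟨z2, hz2⟩ := half_of c2
  obtain ⟨z3, hz3⟩ := half_of c3
  obtain ⟨z4, hz4⟩ := half_of c4
  have key : ∀ {q : ℚ_[2]} {x z : ℤ_[2]}, 2 ^ (k + 1) * q = io x → x = 2 * z →
      2 ^ k * q = io z := by
    intro q x z h1 h2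
    have h20 : (2 : ℚ_[2]) ≠ 0 := two_ne_zero
    apply mul_left_cancel₀ h20
    rw [h2, map_mul, map_ofNat] at h1
    linear_combination h1
  exact ⟨z1, z2, z3, z4, key e1 hz1, key e2 hz2, key e3 hz3, key e4 hz4⟩

/-- Coordinates of a pair `(A, B)` with `A² - AB + B² = 1` in `ℚ₂(√3)` are integral, and the two
residues do not both vanish. -/
theorem integral_of_form {a1 a2 b1 b2 : ℚ_[2]}
    (hP : a1 * a1 + 3 * (a2 * a2) - (a1 * b1 + 3 * (a2 * b2)) + (b1 * b1 + 3 * (b2 * b2)) = 1)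
    (hR : 2 * (a1 * a2) - (a1 * b2 + a2 * b1) + 2 * (b1 * b2) = 0) :
    ∃ x1 x2 y1 y2 : ℤ_[2], a1 = io x1 ∧ a2 = io x2 ∧ b1 = io y1 ∧ b2 = io y2 ∧
      ¬ (toZMod x1 + toZMod x2 = 0 ∧ toZMod y1 + toZMod y2 = 0) := by
  have h0 : Sc a1 a2 b1 b2 0 := by
    obtain ⟨k, hk⟩ := exists_Sc a1 a2 b1 b2
    induction k with
    | zero => exact hk
    | succ k ih => exact ih (Sc_step hP hR hk)
  obtain ⟨x1, x2, y1, y2, e1, e2, e3, e4⟩ := h0
  rw [pow_zero, one_mul] at e1 e2 e3 e4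
  refine ⟨x1, x2, y1, y2, e1, e2, e3, e4, ?_⟩
  have hP' : x1 * x1 + 3 * (x2 * x2) - (x1 * y1 + 3 * (x2 * y2)) + (y1 * y1 + 3 * (y2 * y2))
      = 1 := by
    rw [e1, e2, e3, e4] at hP
    apply io_inj
    simpa only [map_add, map_sub, map_mul, map_ofNat, map_one] using hP
  have hR' : 2 * (x1 * x2) - (x1 * y2 + x2 * y1) + 2 * (y1 * y2) = 0 := by
    rw [e1, e2, e3, e4] at hR
    apply io_inj
    simpa only [map_add, map_sub, map_mul, map_ofNat, map_zero] using hR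
  have hP4 := congrArg (toZMod (p := 2)) hP'
  have hR4 := congrArg (toZMod (p := 2)) hR'
  simp only [map_add, map_sub, map_mul, map_ofNat, map_zero, map_one] at hP4 hR4
  exact finite_check2 _ _ _ _ hP4 hR4

theorem exists_digit : ∃ d : ℚ_[2] → ZMod 2, ∀ (x y : ℚ_[2]) (z : ℤ_[2]),
    x - y = io z → d x - d y = toZMod z := by
  let s : Setoid ℚ_[2] :=
    { r := fun x y => ∃ z : ℤ_[2], x - y = io z
      iseqv :=
        { refl := fun x => ⟨0, by simp⟩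
          symm := by
            rintro x y ⟨z, hz⟩
            exact ⟨-z, by rw [map_neg, ← hz]; ring⟩
          trans := by
            rintro x y w ⟨z, hz⟩ ⟨z', hz'⟩
            exact ⟨z + z', by rw [map_add, ← hz, ← hz']; ring⟩ } }
  have h : ∀ x : ℚ_[2], ∃ z : ℤ_[2], x - (Quotient.mk s x).out = io z := fun x =>
    s.symm' (Quotient.mk_out (s := s) x)
  choose f hf using h
  refine ⟨fun x => toZMod (f x), fun x y z hz => ?_⟩
  have hq : Quotient.mk s x = Quotient.mk s y := Quotient.sound ⟨z, hz⟩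
  have h1 := hf x
  have h2 := hf y
  rw [hq] at h1
  have h3 : f x - f y = z := by
    apply io_inj
    rw [map_sub, ← h1, ← h2, ← hz]; ring
  rw [← h3, map_sub]

end Pool.Agent.R866.UD
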